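import Pool.Agent.V11231.LPS.Defs

/-!
# Runs of the simplex method; the assignment polytope
-/

set_option autoImplicit false

open Finset

namespace Pool.Agent.V11231.SPX

/-- The polyhedron `y ≥ 0`, `A y ≤ b`. -/
def polyhedron {I J : Type} [Fintype J] (A : Matrix I J ℝ) (b : I → ℝ) : Set (J → ℝ) :=
  {y | (∀ j, 0 ≤ y j) ∧ ∀ i, A.mulVec y i ≤ b i}

/-- The objective function `c y`. -/
def value {J : Type} [Fintype J] (c y : J → ℝ) : ℝ := ∑ j, c j * y j

/-- A step of the simplex method from `y` to `z`: these are vertices of the polyhedron joined by an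
edge (the segment between them consists of the maximisers of some linear functional), and the
objective function increases. -/
def Pivot {I J : Type} [Fintype J] (A : Matrix I J ℝ) (b : I → ℝ) (c y z : J → ℝ) : Prop :=
  y ∈ (polyhedron A b).extremePoints ℝ ∧ z ∈ (polyhedron A b).extremePoints ℝ ∧
    IsExposed ℝ (polyhedron A b) (segment ℝ y z) ∧ value c y < value c z

/-- `v 0, …, v N` is a complete run of the simplex method for the maximisation of `c y` over the
polyhedron `y ≥ 0`, `A y ≤ b`: it starts in the vertex `v₀`, each vertex is joined to the next one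
by an improving edge, and the last vertex maximises the objective function. -/
structure IsRun {I J : Type} [Fintype J] (A : Matrix I J ℝ) (b : I → ℝ) (c v₀ : J → ℝ) (N : ℕ)
    (v : ℕ → J → ℝ) : Prop where
  start : v 0 = v₀
  vertex : v N ∈ (polyhedron A b).extremePoints ℝ
  step : ∀ k < N, Pivot A b c (v k) (v (k + 1))
  stop : ∀ y ∈ polyhedron A b, value c y ≤ value c (v N)

/-- The matrix of the assignment polytope `y ≥ 0`, `assign n * y ≤ 1`: all row sums and column sums of
the `n × n` matrix `y` are at most one. -/
def assign (n : ℕ) : Matrix (Fin n ⊕ Fin n) (Fin n × Fin n) ℝ := fun r e =>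
  match r with
  | .inl i => if e.1 = i then 1 else 0
  | .inr j => if e.2 = j then 1 else 0

/-- The objective function with the coefficients `0` and `1` given by bits. -/
def ind {J : Type} (x : J → Bool) : J → ℝ := fun j => if x j = true then 1 else 0

variable {n : ℕ}

theorem assign_inl (y : Fin n × Fin n → ℝ) (i : Fin n) :
    (assign n).mulVec y (.inl i) = ∑ j, y (i, j) := by
  unfold Matrix.mulVec dotProduct
  change ∑ e : Fin n × Fin n, (if e.1 = i then (1 : ℝ) else 0) * y e = ∑ j, y (i, j)
  rw [Fintype.sum_prod_type]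
  simp

theorem assign_inr (y : Fin n × Fin n → ℝ) (j : Fin n) :
    (assign n).mulVec y (.inr j) = ∑ i, y (i, j) := by
  unfold Matrix.mulVec dotProduct
  change ∑ e : Fin n × Fin n, (if e.2 = j then (1 : ℝ) else 0) * y e = ∑ i, y (i, j)
  rw [Fintype.sum_prod_type]
  simp

theorem value_ind {J : Type} [Fintype J] (x : J → Bool) (y : J → ℝ) :
    value (ind x) y = ∑ j, if x j = true then y j else 0 := by
  unfold value ind
  refine sum_congr rfl fun j _ => ?_
  split_ifs <;> simp

/-- The last vertex has the objective value `n` if and only if the linear system of the bits is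
feasible. -/
theorem final_iff {x : Fin n × Fin n → Bool} {v₀ : Fin n × Fin n → ℝ} {N : ℕ}
    {v : ℕ → Fin n × Fin n → ℝ} (h : IsRun (assign n) (fun _ => 1) (ind x) v₀ N v) :
    (n : ℝ) ≤ value (ind x) (v N) ↔ V11231.LPS.Feasible x := by
  rw [V11231.LPS.feasible_iff]
  constructor
  · intro hn
    have hy := h.vertex.1
    obtain ⟨y, hyd⟩ : ∃ y, y = v N := ⟨_, rfl⟩
    rw [← hyd] at hn hy
    obtain ⟨h0, h1⟩ := hy
    have hr : ∀ i, ∑ j, y (i, j) ≤ 1 := fun i => by
      have := h1 (.inl i)
      rwa [assign_inl] at this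
    have hc : ∀ j, ∑ i, y (i, j) ≤ 1 := fun j => by
      have := h1 (.inr j)
      rwa [assign_inr] at this
    rw [value_ind, Fintype.sum_prod_type] at hn
    obtain ⟨w, hw⟩ : ∃ w : Fin n → Fin n → ℝ,
        w = fun i j => if x (i, j) = true then y (i, j) else 0 := ⟨_, rfl⟩
    have hw0 : ∀ i j, 0 ≤ w i j := by
      intro i j
      rw [hw]
      simp only
      split_ifs
      · exact h0 _
      · exact le_rfl
    have hwy : ∀ i j, w i j ≤ y (i, j) := by
      intro i j
      rw [hw]
      simp only
      split_ifs
      · exact le_rfl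
      · exact h0 _
    have hn' : (n : ℝ) ≤ ∑ i, ∑ j, w i j := by
      rw [hw]
      exact hn
    have hwr : ∀ i, ∑ j, w i j ≤ 1 := fun i => (sum_le_sum fun j _ => hwy i j).trans (hr i)
    have hwc : ∀ j, ∑ i, w i j ≤ 1 := fun j => (sum_le_sum fun i _ => hwy i j).trans (hc j)
    have key : ∀ f : Fin n → ℝ, (∀ i, f i ≤ 1) → (n : ℝ) ≤ ∑ i, f i → ∀ i, f i = 1 := by
      intro f hf hs i
      have e1 : ∑ i, (1 - f i) ≤ 0 := by
        rw [sum_sub_distrib]
        simp only [sum_const, card_univ, Fintype.card_fin, nsmul_eq_mul, mul_one]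
        linarith
      have e2 : ∑ i, (1 - f i) = 0 :=
        le_antisymm e1 (sum_nonneg fun i _ => by linarith [hf i])
      have e3 := (sum_eq_zero_iff_of_nonneg (fun i _ => by linarith [hf i])).1 e2 i (mem_univ i)
      linarith
    refine ⟨w, hw0, fun i j => ?_, key _ hwr hn', key _ hwc ?_⟩
    · have h5 : w i j ≤ 1 := by
        refine le_trans ?_ (hwr i)
        exact single_le_sum (f := fun j => w i j) (fun j _ => hw0 i j) (mem_univ j)
      rw [hw] at h5 ⊢
      simp only at h5 ⊢
      split_ifs at h5 ⊢
      · exact h5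
      · exact le_rfl
    · rw [sum_comm]
      exact hn'
  · rintro ⟨y, h0, h1, h2, h3⟩
    have hy : (fun e : Fin n × Fin n => y e.1 e.2) ∈ polyhedron (assign n) (fun _ => 1) := by
      refine ⟨fun e => h0 _ _, ?_⟩
      rintro (i | j)
      · rw [assign_inl]
        exact (h2 i).le
      · rw [assign_inr]
        exact (h3 j).le
    refine le_trans (le_of_eq ?_) (h.stop _ hy)
    rw [value_ind, Fintype.sum_prod_type]
    have e1 : ∀ i j, (if x (i, j) = true then y i j else 0) = y i j := by
      intro i j
      split_ifs with hx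
      · rfl
      · have := h1 i j
        rw [if_neg hx] at this
        exact le_antisymm (h0 i j) this
    simp only [e1, h2]
    simp

end Pool.Agent.V11231.SPX
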