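import Pool.Agent.V11231.FLT.Lp
import Pool.Agent.V11231.SPX.Defs

/-! Approximate objective values at the end of runs of the simplex method. -/

set_option autoImplicit false
set_option linter.unusedSectionVars false
set_option linter.unusedVariables false

namespace Pool.Agent.V11231.SPX

open Finset Pool.Agent.Y630.TF H630VC Filter Pool.Agent.V11231.FLT

open Classical in
theorem lp_fault2 (c ν : ℝ) (hc : 0 ≤ c) (hν : 0 < ν) (h : 3 * c + 6 * ν < 1) :
    ∃ n₀ : ℕ, ∀ n : ℕ, n₀ ≤ n → ∀ K : ℕ, 1 ≤ K →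
    ∃ G : Matrix (Fin (2 * n)) (Fin (n ^ 2 * K)) ℝ, (∀ i j, G i j = 0 ∨ G i j = 1) ∧
      (∀ j, ∃ i, G i j = 1) ∧
      ∀ D : ℕ, 1 ≤ D → D * (2 * Real.log n + 4) ≤ K →
      ∀ (R : Type) [Fintype R] [Nonempty R] (C : R → LiteralCircuit (Fin (n ^ 2 * K))) (S : ℕ),
        (∀ ρ, (C ρ).s ≤ S) →
        (∀ z, PackingSolvable G z n → 4 / 5 ≤ faultyAcceptance C D z) →
        (∀ z, ¬ PackingSolvable G z ((n : ℝ) ^ (1 - c)) → acceptance C z ≤ 1 / 4) →
        (2 : ℝ) ^ ((n : ℝ) ^ ν) ≤ 3 * S + 2 := by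
  obtain ⟨c', hc', h'⟩ : ∃ c' : ℝ, c < c' ∧ 2 * 0 + 3 * c' + 6 * ν < 1 :=
    ⟨c + (1 - (3 * c + 6 * ν)) / 6, by linarith, by linarith⟩
  obtain ⟨N, hN⟩ := asymp_matching 0 c' ν le_rfl (hc.trans hc'.le) hν h'
  obtain ⟨N1, hN1⟩ := Filter.eventually_atTop.1 (((tendsto_rpow_atTop
    (show (0 : ℝ) < c' - c by linarith)).comp
    (tendsto_natCast_atTop_atTop (R := ℝ))).eventually_gt_atTop 2)
  refine ⟨max N (max N1 1), fun n hn K hK => ?_⟩
  have hnN : N ≤ n := (le_max_left _ _).trans hn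
  have hnN1 : N1 ≤ n := ((le_max_left _ _).trans (le_max_right _ _)).trans hn
  have hn1 : 1 ≤ n := ((le_max_right _ _).trans (le_max_right _ _)).trans hn
  have hn0 : (0 : ℝ) < n := by exact_mod_cast hn1
  have hgap : 2 * (n : ℝ) ^ (1 - c') < (n : ℝ) ^ (1 - c) := by
    have h1 : (2 : ℝ) < (n : ℝ) ^ (c' - c) := hN1 n hnN1
    have h2 : (n : ℝ) ^ (1 - c) = (n : ℝ) ^ (c' - c) * (n : ℝ) ^ (1 - c') := by
      rw [← Real.rpow_add hn0]
      congr 1
      ring
    rw [h2]
    have h3 : 0 < (n : ℝ) ^ (1 - c') := Real.rpow_pos_of_pos hn0 _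
    nlinarith
  have hcard : Fintype.card ((Fin n × Fin n) × Fin K) = n ^ 2 * K := by
    simp only [Fintype.card_prod, Fintype.card_fin]
    ring
  let e : (Fin n × Fin n) × Fin K ≃ Fin (n ^ 2 * K) := Fintype.equivFinOfCardEq hcard
  let ρ : Fin (2 * n) ≃ Fin n ⊕ Fin n := (Fintype.equivFinOfCardEq (by
    rw [Fintype.card_sum, Fintype.card_fin]
    ring)).symm
  refine ⟨gmat e ρ, gmat_entry e ρ, fun j => ⟨ρ.symm (Sum.inl (e.symm j).1.1), by
    unfold gmat; simp⟩, fun D hD hDK R _ _ C S hS h1 h2 => ?_⟩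
  have hne : Nonempty (Fin n × Fin n) := ⟨⟨⟨0, by omega⟩, ⟨0, by omega⟩⟩⟩
  have hNZ : NeZero K := ⟨by omega⟩
  have hbad : (Fintype.card (Fin n × Fin n) : ℝ) * (1 - 1 / (D : ℝ)) ^ K ≤ 1 / 40 := by
    refine Pool.Agent.Y630.TG.places_bad hD (by
      rw [Fintype.card_prod, Fintype.card_fin]
      push_cast
      positivity) ?_
    rw [Fintype.card_prod, Fintype.card_fin]
    push_cast
    rw [Real.log_mul hn0.ne' hn0.ne']
    refine le_trans (le_of_eq ?_) hDK
    ring
  obtain ⟨l, hprog, hlen, f, hf, hdec⟩ := hidden (I := Fin n → Fin n → Prop)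
    (X := Fin n × Fin n) (bipInputs n) bitsE (fun p => by
      left
      refine ⟨p.1, p.2, ?_⟩
      funext E
      unfold bitsE
      simp)
    (fun c => Or.inr ⟨c, rfl⟩) HasPerfect (MatchingsLe ((n : ℝ) ^ (1 - c'))) (by omega) hD
    e.toEmbedding (fun _ => false) C S hS hbad
    (fun E hE τ => h1 _ (packing_of_perfect e ρ τ E hE))
    (fun E hE τ => h2 _ (fun hsol => by
      have := value_of_packing e ρ τ E hE hsol
      linarith))
  have : Nonempty (R × (Fin n × Fin n → Fin K)) :=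
    ⟨(Classical.arbitrary R, fun _ => ⟨0, by omega⟩)⟩
  obtain ⟨r, hr⟩ := hN n hnN (R × (Fin n × Fin n → Fin K)) l (fun _ => [])
    (fun r => fprog_of_prog (hprog r))
    ⟨f, hf, fun E => ⟨fun hE => by
      have h3 := (hdec E).1 hE
      convert h3, fun hE => by
      have h3 := (hdec E).2 hE
      convert h3⟩⟩ (fun r => by
      unfold combos
      simp)
  have h3 : ((l r).length : ℝ) ≤ 3 * S + 2 := by exact_mod_cast hlen r
  have h4 : ((wires ([] : List (List (((Fin n → Fin n → Prop) → ℝ) × ℝ))) : ℕ) : ℝ) = 0 := by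
    simp [wires]
  refine hr.trans ?_
  rw [h4]
  linarith


/-- The last vertex of a run and the linear system with upper bounds. -/
theorem final_pack {r M : ℕ} {G : Matrix (Fin r) (Fin M) ℝ} (h0 : ∀ i j, G i j = 0 ∨ G i j = 1)
    (h1 : ∀ j, ∃ i, G i j = 1) {z : Fin M → Bool} {v₀ : Fin M → ℝ} {N : ℕ}
    {v : ℕ → Fin M → ℝ} (h : IsRun G (fun _ => 1) (ind z) v₀ N v) (t : ℝ) :
    t ≤ value (ind z) (v N) ↔ PackingSolvable G z t := by
  have hG0 : ∀ i j, 0 ≤ G i j := fun i j => by
    rcases h0 i j with h | h <;> rw [h]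
    norm_num
  constructor
  · intro ht
    obtain ⟨y0, y1⟩ := h.vertex.1
    rw [value_ind] at ht
    refine ⟨fun e => if z e = true then v N e else 0, fun e => ?_, fun e => ?_, fun i => ?_, ht⟩
    · simp only
      split_ifs
      · exact y0 e
      · exact le_rfl
    · simp only
      split_ifs
      · obtain ⟨i, hi⟩ := h1 e
        refine le_trans ?_ (y1 i)
        unfold Matrix.mulVec dotProduct
        have e1 : v N e = G i e * v N e := by rw [hi, one_mul]
        rw [e1]
        exact single_le_sum (f := fun j => G i j * v N j)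
          (fun j _ => mul_nonneg (hG0 i j) (y0 j)) (mem_univ e)
      · exact le_rfl
    · refine le_trans ?_ (y1 i)
      unfold Matrix.mulVec dotProduct
      refine sum_le_sum fun j _ => mul_le_mul_of_nonneg_left ?_ (hG0 i j)
      simp only
      split_ifs
      · exact le_rfl
      · exact y0 j
  · rintro ⟨x, x0, x1, x2, x3⟩
    refine x3.trans (le_trans (le_of_eq ?_) (h.stop x ⟨x0, x2⟩))
    rw [value_ind]
    refine sum_congr rfl fun e _ => ?_
    have := x1 e
    split_ifs at this ⊢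
    · rfl
    · exact le_antisymm this (x0 e)

/-- The last vertex of a run and large matchings. -/
theorem value_of_matching {n : ℕ} {E : Fin n → Fin n → Prop} {x : Fin n × Fin n → Bool}
    (hx : ∀ i j, x (i, j) = true ↔ E i j) {v₀ : Fin n × Fin n → ℝ} {N : ℕ}
    {v : ℕ → Fin n × Fin n → ℝ} (h : IsRun (assign n) (fun _ => 1) (ind x) v₀ N v) :
    (HasPerfect E → (n : ℝ) ≤ value (ind x) (v N)) ∧
      ∀ b, MatchingsLe b E → value (ind x) (v N) ≤ 2 * b := by
  classical
  constructor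
  · rintro ⟨π, hπ⟩
    rw [final_iff h]
    exact V11231.LPS.feasible_of_perm π fun i => (hx _ _).2 (hπ i)
  · intro b hb
    obtain ⟨y0, y1⟩ := h.vertex.1
    have hr : ∀ i, ∑ j, v N (i, j) ≤ 1 := fun i => by
      have := y1 (.inl i)
      rwa [assign_inl] at this
    have hc : ∀ j, ∑ i, v N (i, j) ≤ 1 := fun j => by
      have := y1 (.inr j)
      rwa [assign_inr] at this
    rw [value_ind]
    have hw0 : ∀ e, 0 ≤ (if x e = true then v N e else 0) := by
      intro e
      split_ifs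
      · exact y0 _
      · exact le_rfl
    have hwy : ∀ e, (if x e = true then v N e else 0) ≤ v N e := by
      intro e
      split_ifs
      · exact le_rfl
      · exact y0 _
    refine V11231.LPG.value_le hb (fun e => if x e = true then v N e else 0) ?_
    rintro (_ | p | p | i | j) hr'
    · exact absurd rfl hr'
    · rw [V11231.LPG.mulVec_cap]
      change (if x p = true then v N p else 0) ≤ (if E p.1 p.2 then 1 else 0)
      by_cases hE : E p.1 p.2
      · rw [if_pos hE]
        refine (hwy p).trans (le_trans ?_ (hr p.1))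
        exact single_le_sum (f := fun j => v N (p.1, j)) (fun j _ => y0 _) (mem_univ p.2)
      · rw [if_neg hE, if_neg (fun h => hE ((hx p.1 p.2).1 h))]
    · rw [V11231.LPG.mulVec_nonneg]
      have := hw0 p
      change -(if x p = true then v N p else 0) ≤ 0
      linarith
    · rw [V11231.LPG.mulVec_left]
      exact (sum_le_sum fun j _ => hwy (i, j)).trans (hr i)
    · rw [V11231.LPG.mulVec_right]
      exact (sum_le_sum fun i _ => hwy (i, j)).trans (hc j)

end Pool.Agent.V11231.SPX
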